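import Mathlib
import Pool.Agent.Work.MP_f2148a_nt.Near

set_option autoImplicit false

namespace Pool.Agent.Work.MP_f2148a_nt.Old.NearRational

/-- For every `C > 0` there are `c > 0` and `X₀` such that for every pair of integers `(x, y)` with
`x ≥ X₀`, `y² ≠ x³` and `max(|x|,|y|) > C |y² - x³|³`, and for all integers `a` and `b ≥ 1`,
`|b √x - a| > c / max((b √x)^(1/5), b⁵)`. -/
theorem result : ∀ C : ℝ, 0 < C → ∃ c X₀ : ℝ, 0 < c ∧ ∀ x y : ℤ, X₀ ≤ (x : ℝ) →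
    y ^ 2 ≠ x ^ 3 → C * |(y : ℝ) ^ 2 - (x : ℝ) ^ 3| ^ 3 < max |(x : ℝ)| |(y : ℝ)| →
    ∀ a b : ℤ, 1 ≤ b →
    c / max (((b : ℝ) * √(x : ℝ)) ^ (1 / 5 : ℝ)) ((b : ℝ) ^ 5) < |(b : ℝ) * √(x : ℝ) - a| :=
  Pool.Agent.Work.MP_f2148a_nt.near_rational

end Pool.Agent.Work.MP_f2148a_nt.Old.NearRational
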