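import Mathlib
import Pool.Agent.Work.MP_f2148a_nt.Sparse

set_option autoImplicit false

namespace Pool.Agent.Work.MP_f2148a_nt.Old.SparseViolations

/-- For every `C > 0` and `ε > 0` there is `A` such that for every `M ≥ 1` the number of integer
pairs `(x, y)` with `|x|, |y| ≤ M`, `y² ≠ x³` and `max(|x|,|y|) > C |y² - x³|³` is at most
`A M^(2/9+ε)`. -/
theorem result : ∀ C : ℝ, 0 < C → ∀ ε : ℝ, 0 < ε → ∃ A : ℝ, ∀ M : ℝ, 1 ≤ M →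
    (({p : ℤ × ℤ | |(p.1 : ℝ)| ≤ M ∧ |(p.2 : ℝ)| ≤ M ∧ p.2 ^ 2 ≠ p.1 ^ 3 ∧
      C * |(p.2 : ℝ) ^ 2 - (p.1 : ℝ) ^ 3| ^ 3 < max |(p.1 : ℝ)| |(p.2 : ℝ)|}).ncard : ℝ) ≤
      A * M ^ (2 / 9 + ε) := by
  intro C hC ε hε
  obtain ⟨A, hA⟩ := Pool.Agent.Work.MP_f2148a_nt.sparse C hC ε hε
  refine ⟨A, fun M hM => ?_⟩
  set V : Set (ℤ × ℤ) := {p : ℤ × ℤ | |(p.1 : ℝ)| ≤ M ∧ |(p.2 : ℝ)| ≤ M ∧ p.2 ^ 2 ≠ p.1 ^ 3 ∧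
      C * |(p.2 : ℝ) ^ 2 - (p.1 : ℝ) ^ 3| ^ 3 < max |(p.1 : ℝ)| |(p.2 : ℝ)|} with hV
  have hfin : V.Finite := by
    apply Set.Finite.subset (Set.toFinite (↑((Finset.Icc (-⌈M⌉) ⌈M⌉) ×ˢ
      (Finset.Icc (-⌈M⌉) ⌈M⌉)) : Set (ℤ × ℤ)))
    intro p hp
    obtain ⟨h1, h2, _⟩ := hp
    have key : ∀ z : ℤ, |(z : ℝ)| ≤ M → z ∈ Finset.Icc (-⌈M⌉) ⌈M⌉ := by
      intro z hz
      rw [Finset.mem_Icc, ← abs_le]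
      have : ((|z| : ℤ) : ℝ) ≤ (⌈M⌉ : ℝ) := by
        push_cast
        exact hz.trans (Int.le_ceil M)
      exact_mod_cast this
    rw [Finset.coe_product]
    exact ⟨key _ h1, key _ h2⟩
  rw [Set.ncard_eq_toFinset_card V hfin]
  apply hA M hM
  intro p hp
  rw [Set.Finite.mem_toFinset] at hp
  exact hp

end Pool.Agent.Work.MP_f2148a_nt.Old.SparseViolations
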